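import Pool.Agent.Helper51.BW.Spec

set_option autoImplicit false

/-!
# Deterministic counting of the visits
-/

namespace Pool.Agent.Helper60.BW.DET

open Finset
open Pool.Agent.Helper51.BW

variable {d : ℕ}

theorem sum_dir (e : D d) : ∑ j, |((dir e) j : ℝ)| = 1 := by
  rw [Finset.sum_eq_single e.1]
  · unfold dir
    rw [Pi.single_eq_same]
    split_ifs <;> simp
  · intro j _ hj
    unfold dir
    rw [Pi.single_eq_of_ne hj]
    simp
  · intro h
    exact absurd (Finset.mem_univ _) h

theorem norm_le (S : ℕ → V d) (hS : PathHyp S) (t : ℕ) : ∑ j, |(S t j : ℝ)| ≤ t := by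
  induction t with
  | zero => rw [hS.1]; simp
  | succ t ih =>
    obtain ⟨e, he⟩ := hS.2 t
    rw [he]
    calc ∑ j, |(((S t + dir e) j : ℤ) : ℝ)| ≤ ∑ j, (|(S t j : ℝ)| + |((dir e) j : ℝ)|) := by
          refine Finset.sum_le_sum fun j _ => ?_
          rw [Pi.add_apply]
          push_cast
          exact abs_add_le _ _
      _ = ∑ j, |(S t j : ℝ)| + 1 := by rw [Finset.sum_add_distrib, sum_dir]
      _ ≤ ((t + 1 : ℕ) : ℝ) := by push_cast; linarith

open Classical in
theorem ycnt_le (K : ℕ) (S Y : ℕ → V d) (j T1 : ℕ) (hT : ∀ t, Y t = S j → t < T1) :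
    Ycnt K S Y j ≤ if (∀ s < j, S s ≠ S j) then
      (((Finset.range T1).filter fun t => Y t = S j).card : ℝ) else 0 := by
  unfold Ycnt
  split_ifs with h
  · rw [Finset.sum_boole]
    have hsub : (Finset.Icc 1 K).filter (fun l => HitsGE Y l (S j)) ⊆
        Finset.Icc 1 ((Finset.range T1).filter fun t => Y t = S j).card := by
      intro l hl
      rw [Finset.mem_filter, Finset.mem_Icc] at hl
      obtain ⟨⟨h1, _⟩, T, hT'⟩ := hl
      rw [Finset.mem_Icc]
      refine ⟨h1, hT'.trans (Finset.card_le_card ?_)⟩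
      intro t ht
      rw [Finset.mem_filter] at ht ⊢
      exact ⟨Finset.mem_range.2 (hT t ht.2), ht.2⟩
    have := Finset.card_le_card hsub
    rw [Nat.card_Icc, Nat.add_sub_cancel] at this
    exact_mod_cast this
  · exact le_refl _

theorem main : S_DET := by
  classical
  intro d S Y c0 n0 hS hc hY K n
  set T1 : ℕ := n0 + ⌈(n : ℝ) / c0⌉₊ with hT1
  have hvis : ∀ j < n, ∀ t, Y t = S j → t < T1 := by
    intro j hj t ht
    by_contra hcon
    push Not at hcon
    have h1 : n0 ≤ t := le_trans (Nat.le_add_right _ _) hcon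
    have h2 := hY t h1
    rw [ht] at h2
    have h3 := norm_le S hS j
    have h4 : (n : ℝ) / c0 ≤ t := by
      have h5 : ⌈(n : ℝ) / c0⌉₊ ≤ t := le_trans (Nat.le_add_left _ _) hcon
      exact (Nat.le_ceil _).trans (by exact_mod_cast h5)
    rw [div_le_iff₀ hc] at h4
    have h6 : (j : ℝ) < n := by exact_mod_cast hj
    linarith [mul_comm (t : ℝ) c0]
  let A : Finset ℕ := (Finset.range n).filter fun j => ∀ s < j, S s ≠ S j
  have hdis : Set.PairwiseDisjoint (A : Set ℕ)
      (fun j => (Finset.range T1).filter fun t => Y t = S j) := by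
    intro a ha b hb hab
    rw [Function.onFun, Finset.disjoint_left]
    intro t ht ht'
    rw [Finset.mem_filter] at ht ht'
    have ha' := (Finset.mem_filter.1 (Finset.mem_coe.1 ha)).2
    have hb' := (Finset.mem_filter.1 (Finset.mem_coe.1 hb)).2
    have he : S a = S b := ht.2.symm.trans ht'.2
    rcases lt_or_gt_of_ne hab with h | h
    · exact hb' a h he
    · exact ha' b h he.symm
  have hsum : ∑ j ∈ Finset.range n, Ycnt K S Y j ≤ (T1 : ℝ) := by
    calc ∑ j ∈ Finset.range n, Ycnt K S Y j
        ≤ ∑ j ∈ Finset.range n, (if (∀ s < j, S s ≠ S j) then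
          (((Finset.range T1).filter fun t => Y t = S j).card : ℝ) else 0) :=
          Finset.sum_le_sum fun j hj => ycnt_le K S Y j T1 (hvis j (Finset.mem_range.1 hj))
      _ = ∑ j ∈ A, (((Finset.range T1).filter fun t => Y t = S j).card : ℝ) := by
          rw [Finset.sum_filter]
      _ = ((A.biUnion fun j => (Finset.range T1).filter fun t => Y t = S j).card : ℝ) := by
          rw [Finset.card_biUnion hdis]
          push_cast
          rfl
      _ ≤ (T1 : ℝ) := by
          have h1 : (A.biUnion fun j => (Finset.range T1).filter fun t => Y t = S j) ⊆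
              Finset.range T1 := Finset.biUnion_subset.2 fun j _ => Finset.filter_subset _ _
          have h2 := Finset.card_le_card h1
          rw [Finset.card_range] at h2
          exact_mod_cast h2
  have hceil : (⌈(n : ℝ) / c0⌉₊ : ℝ) ≤ n / c0 + 1 :=
    (Nat.ceil_lt_add_one (by positivity)).le
  rw [hT1] at hsum
  push_cast at hsum
  linarith

end Pool.Agent.Helper60.BW.DET
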