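import Pool.Agent.Helper60.BW.LAW

set_option autoImplicit false

/-!
# Infinite horizon as a limit
-/

namespace Pool.Agent.Helper60.BW.HOR

open Finset MeasureTheory Filter Topology
open Pool.Agent.Helper51.BW
open Pool.Agent.Helper60.BW.Base

theorem main : S_HOR := by
  classical
  intro d Ω _ μ _ p X _ hp1 hX Q T0 f hQ hQd hfd hf0
  have hiff : ∀ T, T0 ≤ T → ∀ S S' : ℕ → V d, (∀ t ≤ T, S t = S' t) → (Q T S ↔ Q T S') :=
    fun T hT S S' h => ⟨hQd T hT S S' h, hQd T hT S' S fun t ht => (h t ht).symm⟩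
  have hind : ∀ T, T0 ≤ T → ∀ S S' : ℕ → V d, (∀ t ≤ T, S t = S' t) →
      ind (Q T S) = ind (Q T S') := by
    intro T hT S S' h
    rw [propext (hiff T hT S S' h)]
  have hdep : ∀ T, T0 ≤ T → ∀ S S' : ℕ → V d, (∀ t ≤ T, S t = S' t) →
      ind (Q T S) * f S = ind (Q T S') * f S' := by
    intro T hT S S' h
    rw [hind T hT S S' h, hfd _ _ fun t ht => h t (ht.trans hT)]
  have hanti : ∀ (T k : ℕ) (S : ℕ → V d), Q (T + k) S → Q T S := by
    intro T k S
    induction k with
    | zero => exact id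
    | succ k ih => exact fun h => ih (hQ _ _ h)
  have hfi : Integrable (fun ω => f (fun n => X 0 n ω)) μ :=
    (LAW.law_aux μ p X hp1 hX T0 f hfd).1
  have hmeasQ : ∀ T, T0 ≤ T → MeasurableSet {ω | Q T (fun n => X 0 n ω)} := by
    intro T hT
    have h1 := meas_dep X 0 T (fun S => ind (Q T S)) (hind T hT)
    have h2 : {ω | Q T (fun n => X 0 n ω)} =
        (fun ω => ind (Q T (fun n => X 0 n ω))) ⁻¹' {1} := by
      ext ω
      unfold ind
      by_cases h : Q T (fun n => X 0 n ω) <;> simp [h]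
    rw [h2]
    exact past_le X hX.meas 0 T _ (h1 (measurableSet_singleton 1))
  have hmeasA : MeasurableSet {ω | ∀ T, T0 ≤ T → Q T (fun n => X 0 n ω)} := by
    have h3 : {ω | ∀ T, T0 ≤ T → Q T (fun n => X 0 n ω)} =
        ⋂ T, ⋂ (_ : T0 ≤ T), {ω | Q T (fun n => X 0 n ω)} := by
      ext ω
      simp
    rw [h3]
    exact MeasurableSet.iInter fun T => MeasurableSet.iInter fun hT => hmeasQ T hT
  rw [← integral_indicator hmeasA]
  have hlaw : ∀ T, T0 ≤ T → Ex (p 0) T (fun L => ind (Q T (pos L)) * f (pos L)) =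
      ∫ ω, ind (Q T (fun n => X 0 n ω)) * f (fun n => X 0 n ω) ∂μ := fun T hT =>
    ((LAW.law_aux μ p X hp1 hX T (fun S => ind (Q T S) * f S) (hdep T hT)).2).symm
  rw [← tendsto_add_atTop_iff_nat T0]
  simp_rw [fun n => hlaw (n + T0) (Nat.le_add_left _ _)]
  refine tendsto_integral_of_dominated_convergence (fun ω => f (fun n => X 0 n ω)) ?_ hfi ?_ ?_
  · intro n
    exact (LAW.law_aux μ p X hp1 hX (n + T0) (fun S => ind (Q (n + T0) S) * f S)
      (hdep _ (Nat.le_add_left _ _))).1.aestronglyMeasurable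
  · intro n
    refine Eventually.of_forall fun ω => ?_
    rw [Real.norm_eq_abs]
    unfold ind
    split_ifs
    · rw [one_mul, abs_of_nonneg (hf0 _)]
    · rw [zero_mul, abs_zero]
      exact hf0 _
  · refine Eventually.of_forall fun ω => ?_
    by_cases h : ∀ T, T0 ≤ T → Q T (fun n => X 0 n ω)
    · rw [Set.indicator_of_mem (show ω ∈ {ω | ∀ T, T0 ≤ T → Q T (fun n => X 0 n ω)} from h)]
      refine tendsto_const_nhds.congr fun n => ?_
      unfold ind
      rw [if_pos (h _ (Nat.le_add_left _ _)), one_mul]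
    · rw [Set.indicator_of_notMem
        (show ω ∉ {ω | ∀ T, T0 ≤ T → Q T (fun n => X 0 n ω)} from h)]
      push Not at h
      obtain ⟨T1, _, hT1⟩ := h
      refine tendsto_const_nhds.congr' ?_
      filter_upwards [eventually_ge_atTop T1] with n hn
      have h4 : ¬ Q (n + T0) (fun n => X 0 n ω) := by
        intro hq
        refine hT1 (hanti T1 (n + T0 - T1) _ ?_)
        rw [show T1 + (n + T0 - T1) = n + T0 by omega]
        exact hq
      unfold ind
      rw [if_neg h4, zero_mul]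

end Pool.Agent.Helper60.BW.HOR
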