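import Pool.Agent.Helper60.BW.Base

set_option autoImplicit false

/-!
# Law of the first walk, finite horizon
-/

namespace Pool.Agent.Helper60.BW.LAW

open Finset MeasureTheory Filter Topology
open Pool.Agent.Helper51.BW
open Pool.Agent.Helper60.BW.Base

variable {d : ℕ} {Ω : Type}

theorem trans_zero (p : ℕ → D d → ℝ) (hp1 : ∀ i, ∑ e, p i e = 1) (X : ℕ → ℕ → Ω → V d) (ω : Ω)
    (z : V d) (e : D d) : trans (p 0) (env X 0 ω) z e = p 0 e := by
  unfold Pool.Agent.Helper51.BW.trans env
  simp [hp1]

theorem stp_unique {X : ℕ → ℕ → Ω → V d} {i n : ℕ} {ω : Ω} {e e' : D d}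
    (h : ω ∈ stp X i n e) (h' : ω ∈ stp X i n e') : e = e' := by
  have h1 : X i (n + 1) ω = X i n ω + dir e := h
  have h2 : X i (n + 1) ω = X i n ω + dir e' := h'
  rw [h1] at h2
  exact dir_injective (add_left_cancel h2)

theorem pos_app (l : List (D d)) (e : D d) (t : ℕ) (ht : t ≤ l.length) :
    pos (l ++ [e]) t = pos l t := by
  unfold pos
  rw [List.take_append_of_le_length ht]

theorem pos_last (l : List (D d)) (e : D d) :
    pos (l ++ [e]) (l.length + 1) = pos l l.length + dir e := by
  unfold pos
  rw [List.take_of_length_le (by simp), List.take_of_length_le (le_refl _)]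
  simp

theorem law_aux [MeasurableSpace Ω] (μ : Measure Ω) [IsProbabilityMeasure μ]
    (p : ℕ → D d → ℝ) (X : ℕ → ℕ → Ω → V d) (hp1 : ∀ i, ∑ e, p i e = 1)
    (hX : IsIterated μ p X) : ∀ (T : ℕ) (F : (ℕ → V d) → ℝ),
    (∀ S S' : ℕ → V d, (∀ t ≤ T, S t = S' t) → F S = F S') →
    Integrable (fun ω => F (fun n => X 0 n ω)) μ ∧
      ∫ ω, F (fun n => X 0 n ω) ∂μ = Ex (p 0) T (fun L => F (pos L)) := by
  classical
  intro T
  induction T with
  | zero =>
    intro F hF
    have h : ∀ ω, F (fun n => X 0 n ω) = F (pos []) := fun ω => hF _ _ fun t ht => by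
      obtain rfl : t = 0 := by omega
      simp [hX.start, pos]
    simp_rw [h]
    exact ⟨integrable_const _, by simp [Ex]⟩
  | succ T ih =>
    intro F hF
    let Fe : D d → (ℕ → V d) → ℝ := fun e S => F (fun n => if n ≤ T then S n else S T + dir e)
    have hFe : ∀ e (S S' : ℕ → V d), (∀ t ≤ T, S t = S' t) → Fe e S = Fe e S' := by
      intro e S S' h
      refine hF _ _ fun n _ => ?_
      by_cases hn : n ≤ T
      · rw [if_pos hn, if_pos hn, h n hn]
      · rw [if_neg hn, if_neg hn, h T le_rfl]
    have ihe := fun e => ih (Fe e) (hFe e)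
    have hdec : (fun ω => F (fun n => X 0 n ω)) =ᵐ[μ]
        fun ω => ∑ e, (stp X 0 T e).indicator (fun ω => Fe e (fun n => X 0 n ω)) ω := by
      filter_upwards [step_ae μ p X hX 0 T] with ω hω
      obtain ⟨e, he⟩ := hω.2 (by simp_rw [trans_zero p hp1]; exact hp1 0)
      rw [Finset.sum_eq_single e]
      · rw [Set.indicator_of_mem he]
        refine hF _ _ fun t ht => ?_
        by_cases h : t ≤ T
        · rw [if_pos h]
        · rw [if_neg h, show t = T + 1 by omega]
          exact he
      · intro e' _ hne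
        exact Set.indicator_of_notMem (fun he' => hne (stp_unique he' he)) _
      · intro h
        exact absurd (Finset.mem_univ _) h
    have hii : ∀ e, Integrable ((stp X 0 T e).indicator
        (fun ω => Fe e (fun n => X 0 n ω))) μ := fun e =>
      (ihe e).1.indicator (stp_meas X hX.meas 0 T e)
    refine ⟨(integrable_finset_sum _ fun e _ => hii e).congr hdec.symm, ?_⟩
    rw [integral_congr_ae hdec, integral_finset_sum _ fun e _ => hii e]
    have hm := past_le X hX.meas 0 T
    have hone : ∀ e, ∫ ω, (stp X 0 T e).indicator (fun ω => Fe e (fun n => X 0 n ω)) ω ∂μ =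
        p 0 e * Ex (p 0) T (fun L => Fe e (pos L)) := by
      intro e
      have e1 : (stp X 0 T e).indicator (fun ω => Fe e (fun n => X 0 n ω)) =
          (fun ω => Fe e (fun n => X 0 n ω)) * (stp X 0 T e).indicator (fun _ => (1 : ℝ)) := by
        funext ω
        by_cases h : ω ∈ stp X 0 T e
        · rw [Pi.mul_apply, Set.indicator_of_mem h, Set.indicator_of_mem h, mul_one]
        · rw [Pi.mul_apply, Set.indicator_of_notMem h, Set.indicator_of_notMem h, mul_zero]
      have e2 := condExp_mul_of_stronglyMeasurable_left (μ := μ) (m := past X 0 T)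
        (f := fun ω => Fe e (fun n => X 0 n ω))
        (g := (stp X 0 T e).indicator (fun _ => (1 : ℝ)))
        (meas_dep X 0 T (Fe e) (hFe e)).stronglyMeasurable (by rw [← e1]; exact hii e)
        ((integrable_const _).indicator (stp_meas X hX.meas 0 T e))
      rw [e1, ← integral_condExp hm, integral_congr_ae e2]
      have e3 : (fun ω => Fe e (fun n => X 0 n ω)) *
          μ[(stp X 0 T e).indicator (fun _ => (1 : ℝ)) | past X 0 T] =ᵐ[μ]
          fun ω => p 0 e * Fe e (fun n => X 0 n ω) := by
        filter_upwards [hX.step 0 T e] with ω hω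
        have hω' : (μ[(stp X 0 T e).indicator (fun _ => (1 : ℝ)) | past X 0 T]) ω =
            trans (p 0) (env X 0 ω) (X 0 T ω) e := hω
        rw [Pi.mul_apply, hω', trans_zero p hp1, mul_comm]
      rw [integral_congr_ae e3, integral_const_mul, (ihe e).2]
    rw [Finset.sum_congr rfl fun e _ => hone e, Ex_last]
    have e4 : Ex (p 0) T (fun l => ∑ e, p 0 e * F (pos (l ++ [e]))) =
        Ex (p 0) T (fun l => ∑ e, p 0 e * Fe e (pos l)) := by
      refine Ex_congr _ _ _ _ fun l hl => ?_
      refine Finset.sum_congr rfl fun e _ => ?_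
      congr 1
      refine hF _ _ fun t ht => ?_
      by_cases h : t ≤ T
      · rw [if_pos h, pos_app l e t (by omega)]
      · rw [if_neg h, show t = l.length + 1 by omega, pos_last, hl]
    rw [e4, Ex_sum]
    exact (Finset.sum_congr rfl fun e _ => Ex_mul _ _ _ _).symm

theorem main : S_LAW := by
  intro d Ω _ μ _ p X _ hp1 hX T F hF
  exact (law_aux μ p X hp1 hX T F hF).2

end Pool.Agent.Helper60.BW.LAW
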