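import Pool.Agent.Helper60.BW.LAW

set_option autoImplicit false

/-!
# Almost sure regularity of the walks
-/

namespace Pool.Agent.Helper60.BW.REG

open Finset MeasureTheory Filter Topology
open Pool.Agent.Helper51.BW
open Pool.Agent.Helper60.BW.Base

variable {d : ℕ} {Ω : Type}

theorem trace_symm {Y : ℕ → V d} {x y : V d} (h : Trace Y x y) : Trace Y y x := by
  obtain ⟨n, hn⟩ := h
  exact ⟨n, hn.symm⟩

theorem sum_trans (p : D d → ℝ) (hp : ∀ e, 0 < p e) (G : V d → V d → Prop) (x : V d) (e' : D d)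
    (h : G x (x + dir e')) : ∑ e, Pool.Agent.Helper51.BW.trans p G x e = 1 := by
  classical
  have hZ : 0 < ∑ e, (if G x (x + dir e) then p e else 0) := by
    refine Finset.sum_pos' (fun e _ => ?_) ⟨e', Finset.mem_univ _, ?_⟩
    · split_ifs
      · exact (hp e).le
      · exact le_refl _
    · rw [if_pos h]
      exact hp e'
  have h1 : ∀ e, Pool.Agent.Helper51.BW.trans p G x e =
      (if G x (x + dir e) then p e else 0) / ∑ e, (if G x (x + dir e) then p e else 0) := by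
    intro e
    unfold Pool.Agent.Helper51.BW.trans
    split_ifs with h2
    · rfl
    · rw [zero_div]
  rw [Finset.sum_congr rfl fun e _ => h1 e, ← Finset.sum_div, div_self hZ.ne']

theorem trans_ne {p : D d → ℝ} {G : V d → V d → Prop} {x : V d} {e : D d}
    (h : Pool.Agent.Helper51.BW.trans p G x e ≠ 0) : G x (x + dir e) := by
  by_contra hcon
  refine h ?_
  unfold Pool.Agent.Helper51.BW.trans
  rw [if_neg hcon]

/-- the deterministic part -/
theorem det (p : ℕ → D d → ℝ) (hp : ∀ i e, 0 < p i e) (hp1 : ∀ i, ∑ e, p i e = 1)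
    (X : ℕ → ℕ → Ω → V d) (ω : Ω) (h0 : ∀ i, X i 0 ω = 0)
    (hs : ∀ i n, (∀ e, ω ∈ stp X i n e →
      Pool.Agent.Helper51.BW.trans (p i) (env X i ω) (X i n ω) e ≠ 0) ∧
      (∑ e, Pool.Agent.Helper51.BW.trans (p i) (env X i ω) (X i n ω) e = 1 →
        ∃ e, ω ∈ stp X i n e)) :
    ∀ m, PathHyp (fun n => X m n ω) ∧
      ∀ n, Trace (fun s => X m s ω) (X (m + 1) n ω) (X (m + 1) (n + 1) ω) := by
  have key : ∀ m, PathHyp (fun n => X m n ω) → ∀ n,
      (∃ e, Trace (fun s => X m s ω) (X (m + 1) n ω) (X (m + 1) n ω + dir e)) ∧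
      ∃ e, ω ∈ stp X (m + 1) n e ∧
        Trace (fun s => X m s ω) (X (m + 1) n ω) (X (m + 1) n ω + dir e) := by
    intro m hm n
    have step : ∀ n, (∃ e, Trace (fun s => X m s ω) (X (m + 1) n ω) (X (m + 1) n ω + dir e)) →
        ∃ e, ω ∈ stp X (m + 1) n e ∧
          Trace (fun s => X m s ω) (X (m + 1) n ω) (X (m + 1) n ω + dir e) := by
      rintro n ⟨e', he'⟩
      obtain ⟨e, he⟩ := (hs (m + 1) n).2 (sum_trans (p (m + 1)) (hp (m + 1))
        (env X (m + 1) ω) _ e' he')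
      exact ⟨e, he, trans_ne ((hs (m + 1) n).1 e he)⟩
    have hex : ∀ n, ∃ e, Trace (fun s => X m s ω) (X (m + 1) n ω) (X (m + 1) n ω + dir e) := by
      intro n
      induction n with
      | zero =>
        obtain ⟨e, he⟩ := hm.2 0
        have h1 : X m (0 + 1) ω = X m 0 ω + dir e := he
        refine ⟨e, 0, Or.inl ⟨?_, ?_⟩⟩
        · change X m 0 ω = X (m + 1) 0 ω
          rw [h0, h0]
        · change X m (0 + 1) ω = X (m + 1) 0 ω + dir e
          rw [h1, h0, h0]
      | succ n ih =>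
        obtain ⟨e, he, ht⟩ := step n ih
        have h1 : X (m + 1) (n + 1) ω = X (m + 1) n ω + dir e := he
        refine ⟨(e.1, !e.2), ?_⟩
        rw [dir_neg, h1, add_neg_cancel_right]
        exact trace_symm ht
    exact ⟨hex n, step n (hex n)⟩
  have path : ∀ m, PathHyp (fun n => X m n ω) := by
    intro m
    induction m with
    | zero =>
      refine ⟨h0 0, fun n => ?_⟩
      obtain ⟨e, he⟩ := (hs 0 n).2 (by simp_rw [LAW.trans_zero p hp1]; exact hp1 0)
      exact ⟨e, he⟩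
    | succ m ih =>
      refine ⟨h0 (m + 1), fun n => ?_⟩
      obtain ⟨e, he, _⟩ := (key m ih n).2
      exact ⟨e, he⟩
  intro m
  refine ⟨path m, fun n => ?_⟩
  obtain ⟨e, he, ht⟩ := (key m (path m) n).2
  have h1 : X (m + 1) (n + 1) ω = X (m + 1) n ω + dir e := he
  rw [h1]
  exact ht

theorem leaves (Y : ℕ → V d) (v : Fin d → ℝ) (hv : v ≠ 0)
    (h : Tendsto (fun n : ℕ => fun j => (Y n j : ℝ) / n) atTop (𝓝 v)) (F : Finset (V d)) :
    ∃ n, Y n ∉ F := by
  by_contra hcon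
  push Not at hcon
  obtain ⟨j, hj⟩ := Function.ne_iff.1 hv
  have h1 : Tendsto (fun n : ℕ => (Y n j : ℝ) / n) atTop (𝓝 (v j)) :=
    (tendsto_pi_nhds.1 h) j
  have h2 : Tendsto (fun n : ℕ => (Y n j : ℝ) / n) atTop (𝓝 0) := by
    have h3 : Tendsto (fun n : ℕ => (∑ z ∈ F, |(z j : ℝ)|) / (n : ℝ)) atTop (𝓝 0) :=
      tendsto_const_div_atTop_nhds_zero_nat _
    refine squeeze_zero_norm (fun n => ?_) h3
    rw [Real.norm_eq_abs, abs_div, Nat.abs_cast]
    refine div_le_div_of_nonneg_right ?_ (Nat.cast_nonneg n)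
    exact Finset.single_le_sum (f := fun z : V d => |(z j : ℝ)|) (fun z _ => abs_nonneg _)
      (hcon n)
  exact hj (tendsto_nhds_unique h1 h2)

theorem main : S_REG := by
  intro d Ω _ μ _ p X hp hp1 hX i v hv hlim
  have h1 : ∀ᵐ ω ∂μ, ∀ i n, (∀ e, ω ∈ stp X i n e →
      Pool.Agent.Helper51.BW.trans (p i) (env X i ω) (X i n ω) e ≠ 0) ∧
      (∑ e, Pool.Agent.Helper51.BW.trans (p i) (env X i ω) (X i n ω) e = 1 →
        ∃ e, ω ∈ stp X i n e) :=
    ae_all_iff.2 fun i => ae_all_iff.2 fun n => step_ae μ p X hX i n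
  filter_upwards [h1, hlim] with ω a1 a2
  have a3 := det p hp hp1 X ω (fun i => hX.start i ω) a1
  exact ⟨fun m _ => (a3 m).1, fun m _ n => (a3 m).2 n, leaves _ v hv a2⟩

end Pool.Agent.Helper60.BW.REG
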