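import Pool.Agent.Helper60.BW.REG
import Pool.Agent.Helper51.BW.Spec2

set_option autoImplicit false

/-!
# Almost sure regularity of all the walks
-/

namespace Pool.Agent.Helper60.BW.REG2

open Finset MeasureTheory Filter Topology
open Pool.Agent.Helper51.BW
open Pool.Agent.Helper60.BW.Base

theorem main : S_REG2 := by
  intro d Ω _ μ _ p X hp hp1 hX
  have h1 : ∀ᵐ ω ∂μ, ∀ i n, (∀ e, ω ∈ stp X i n e →
      Pool.Agent.Helper51.BW.trans (p i) (env X i ω) (X i n ω) e ≠ 0) ∧
      (∑ e, Pool.Agent.Helper51.BW.trans (p i) (env X i ω) (X i n ω) e = 1 →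
        ∃ e, ω ∈ stp X i n e) :=
    ae_all_iff.2 fun i => ae_all_iff.2 fun n => step_ae μ p X hX i n
  filter_upwards [h1] with ω a1
  have a3 := REG.det p hp hp1 X ω (fun i => hX.start i ω) a1
  exact ⟨fun m => (a3 m).1, fun m n => (a3 m).2 n⟩

end Pool.Agent.Helper60.BW.REG2
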