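import Pool.Agent.Helper16.BW.QL1
import Pool.Agent.Helper60.BW.REG2

/-!
# BW part QB1: few visits, first type (adapted from Helper16/BW/QL1)
-/

set_option autoImplicit false

open MeasureTheory Filter Topology

namespace Pool.Agent.Helper60.BW.QB1

open Pool.Agent.Helper51.BW
open Pool.Agent.Helper16.BW.QL1

variable {d : ℕ} {Ω : Type}

theorem Reg2_A {X : ℕ → ℕ → Ω → V d} {i : ℕ} {ω : Ω} (h : Reg2 X ω) : ω ∈ A X i := by
  refine ⟨h.1 0, ?_⟩
  simp only [Set.mem_iInter, Set.mem_ofPred_eq]
  intro m _ n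
  exact h.2 m n

theorem main (hONE : S_ONE) (hSTG : S_STG2a) : S_QB1 := by
  intro d Ω _ μ _ p X hp hp1 hX i hi s j N K pm lam E l hpm hlam hpm' hE hK hKN hEs hl hlK
  classical
  obtain ⟨i', rfl⟩ : ∃ i', i = i' + 1 := ⟨i - 1, by omega⟩
  -- the last cut time
  obtain ⟨k0, hk0, hk0max, hk0sup⟩ : ∃ k0 ∈ K, (∀ k ∈ K, k ≤ k0) ∧ K.sup id = k0 := by
    obtain ⟨k0, hk0, h1⟩ := Finset.exists_mem_eq_sup K hK id
    exact ⟨k0, hk0, fun k hk => by
      have := Finset.le_sup (f := id) hk
      rw [h1] at this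
      exact this, h1⟩
  rw [hk0sup]
  set E' : Set Ω := E ∩ A X (i' + 1) with hE'def
  have hE'meas : MeasurableSet[past X (i' + 1) 0] E' :=
    ((sig0_le X hi 0) E hE).inter (meas_A X hi 0)
  have hReg : ∀ᵐ ω ∂μ, Reg2 X ω := REG2.main d Ω μ p X hp hp1 hX
  have hnull : μ {ω | ¬ Reg2 X ω} = 0 := hReg
  set F : Finset (V d) := (Finset.range (j + k0 + 1)).image s with hF
  set B : Finset (V d) := {s (j + k0 + 1)} with hB
  have hsplit : μ (E ∩ {ω | VisB (fun n => X (i' + 1) n ω) l (s j) (s (j + k0 + 1))}) ≤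
      μ (E' ∩ {ω | ∃ n, X (i' + 1) n ω ∈ B ∧ (∀ s < n, X (i' + 1) s ω ∉ B) ∧
        ((Finset.range n).filter (fun s' => X (i' + 1) s' ω = s j)).card < l}) := by
    calc μ (E ∩ {ω | VisB (fun n => X (i' + 1) n ω) l (s j) (s (j + k0 + 1))})
        ≤ μ ((E' ∩ {ω | ∃ n, X (i' + 1) n ω ∈ B ∧ (∀ s < n, X (i' + 1) s ω ∉ B) ∧
          ((Finset.range n).filter (fun s' => X (i' + 1) s' ω = s j)).card < l}) ∪
          {ω | ¬ Reg2 X ω}) := by
          refine measure_mono fun ω hω => ?_
          by_cases hr : Reg2 X ω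
          · refine Or.inl ⟨⟨hω.1, Reg2_A hr⟩, ?_⟩
            obtain ⟨n, h1, h2, h3⟩ := hω.2
            refine ⟨n, ?_, fun s' hs' => ?_, h3⟩
            · rw [hB, Finset.mem_singleton]
              exact h1
            · rw [hB, Finset.mem_singleton]
              exact h2 s' hs'
          · exact Or.inr hr
      _ ≤ _ := by
          refine (measure_union_le _ _).trans ?_
          rw [hnull, add_zero]
  refine hsplit.trans ?_
  by_cases hemp : E' = ∅
  · rw [hemp, Set.empty_inter, measure_empty]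
    exact bot_le
  obtain ⟨ω0, hω0⟩ := Set.nonempty_iff_ne_empty.mpr hemp
  have hkN := hKN k0 hk0
  have hs0 : s 0 = 0 := by
    rw [← (hEs ω0 hω0.1).1 0 (Nat.zero_le _)]
    exact hX.start 0 ω0
  have memF : ∀ z, z ∈ F ↔ ∃ t ≤ j + k0, s t = z := by
    intro z
    rw [hF, Finset.mem_image]
    constructor
    · rintro ⟨t, ht, rfl⟩
      exact ⟨t, by rw [Finset.mem_range] at ht; omega, rfl⟩
    · rintro ⟨t, ht, rfl⟩
      exact ⟨t, by rw [Finset.mem_range]; omega, rfl⟩
  have h0F : (0 : V d) ∈ F := (memF 0).2 ⟨0, Nat.zero_le _, hs0⟩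
  have hxF : s j ∈ F := (memF _).2 ⟨j, by omega, rfl⟩
  have hFB : Disjoint F B := by
    rw [hB, Finset.disjoint_singleton_right, memF]
    rintro ⟨t, ht, hts⟩
    have h1 := (hEs ω0 hω0.1).1 t (by omega)
    have h2 := (hEs ω0 hω0.1).1 (j + k0 + 1) (by omega)
    exact (hEs ω0 hω0.1).2.2 k0 hk0 t (j + k0 + 1) ht (by omega) (by
      show X 0 t ω0 = X 0 (j + k0 + 1) ω0
      rw [h1, h2, hts])
  have hone := hONE d Ω μ p X hp hp1 hX (i' + 1) E' hE'meas F B (s j) l lam hl h0F hxF hFB
    hlam (by
      intro ω hω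
      obtain ⟨hωE, hωA⟩ := hω
      obtain ⟨hagree, hcj, hck⟩ := hEs ω hωE
      have hpath : PathHyp (fun n => X 0 n ω) := hωA.1
      have hnest : ∀ m < i', ∀ n, Trace (fun s => X m s ω) (X (m + 1) n ω)
          (X (m + 1) (n + 1) ω) := by
        have := hωA.2
        simp only [Set.mem_iInter, Set.mem_ofPred_eq] at this
        intro m hm n
        exact this m (by omega) n
      have hG : ∀ x y, env X (i' + 1) ω x y → Trace (fun n => X 0 n ω) x y := by
        intro x y hxy
        exact nest (Y := fun m n => X m n ω) i' hnest x y hxy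
      have hGs : ∀ x y, env X (i' + 1) ω x y → env X (i' + 1) ω y x := by
        intro x y hxy
        exact trace_symm hxy
      obtain ⟨q, ρ, hρ, hq01, hqB, hqx, hq0, hqh, hqρ, hρs⟩ :=
        hSTG d (p (i' + 1)) pm (fun n => X 0 n ω) (env X (i' + 1) ω) j (j + k0)
          (K.image (fun k => j + k)) hpm (fun e => hpm' (i' + 1) le_rfl e) (hp1 (i' + 1)) hpath
          hG hGs hcj (Finset.mem_image.mpr ⟨k0, hk0, rfl⟩) (by
            intro b hb
            obtain ⟨k, hk, rfl⟩ := Finset.mem_image.mp hb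
            exact ⟨by have := hKN k hk; omega, by have := hk0max k hk; omega, hck k hk⟩)
      have ej : X 0 j ω = s j := hagree j (by omega)
      have eB : X 0 (j + k0 + 1) ω = s (j + k0 + 1) := hagree _ (by omega)
      refine ⟨q, ρ, hρ, hq01, ?_, ?_, ?_, ?_, ?_, ?_⟩
      · intro z hz
        rw [hB, Finset.mem_singleton] at hz
        rw [hz, ← eB]
        exact hqB
      · rw [← ej]; exact hqx
      · intro z hz e hzF hzB
        obtain ⟨t, ht, rfl⟩ := (memF z).1 hz
        unfold Pool.Agent.Helper51.BW.trans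
        rw [if_neg]
        intro hc
        have h1 := hG _ _ hc
        have et : X 0 t ω = s t := hagree t (by omega)
        -- the other end is a point of the path
        have h2 : ∃ t', X 0 t' ω = s t + dir e := by
          obtain ⟨n, hn | hn⟩ := h1
          · exact ⟨n + 1, hn.2⟩
          · exact ⟨n, hn.1⟩
        obtain ⟨t', ht'⟩ := h2
        by_cases hle : t' ≤ j + k0
        · apply hzF
          rw [memF]
          exact ⟨t', hle, by rw [← hagree t' (by omega)]; exact ht'⟩
        · apply hzB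
          rw [hB, Finset.mem_singleton, ← eB]
          exact cute (hck k0 hk0) h1 ⟨t, ht, et⟩ ⟨t', not_le.mp hle, ht'⟩
      · intro z hz hzx
        obtain ⟨t, ht, rfl⟩ := (memF z).1 hz
        have et : X 0 t ω = s t := hagree t (by omega)
        have := hqh t ht (by
          show X 0 t ω ≠ X 0 j ω
          rw [et, ej]; exact hzx)
        simp only [et] at this
        exact this
      · simp only [ej] at hqρ
        exact hqρ
      · rw [hq0, zero_add]
        have hsum : ∑ b ∈ K.image (fun k => j + k),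
            Real.exp (ip (lhat (p (i' + 1))) ((fun n => X 0 n ω) j - (fun n => X 0 n ω) b))
            = ∑ k ∈ K, Real.exp (ip (lhat (p (i' + 1))) (s j - s (j + k))) := by
          rw [Finset.sum_image (fun a _ b _ hab => by simpa using hab)]
          refine Finset.sum_congr rfl fun k hk => ?_
          have := hKN k hk
          show Real.exp (ip (lhat (p (i' + 1))) (X 0 j ω - X 0 (j + k) ω)) = _
          rw [ej, hagree (j + k) (by omega)]
        rw [hsum] at hρs
        calc ρ * ((l : ℝ) - 1)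
            ≤ ρ * (lam * pm * ∑ k ∈ K, Real.exp (ip (lhat (p (i' + 1))) (s j - s (j + k)))) :=
              mul_le_mul_of_nonneg_left hlK hρ
          _ = lam * (ρ * (pm * ∑ k ∈ K,
              Real.exp (ip (lhat (p (i' + 1))) (s j - s (j + k))))) := by ring
          _ ≤ lam * 1 := by gcongr
          _ = lam := mul_one _)
  refine hone.trans ?_
  gcongr
  exact Set.inter_subset_left

end Pool.Agent.Helper60.BW.QB1
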