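import Pool.Agent.Helper51.BW.Spec

set_option autoImplicit false

/-!
# Basic facts on the steps of the walks on the probability space
-/

namespace Pool.Agent.Helper60.BW.Base

open Finset MeasureTheory Filter Topology
open Pool.Agent.Helper51.BW

variable {d : ℕ}

theorem dir_injective : Function.Injective (dir : D d → V d) := by
  intro e e' h
  have h1 : e.1 = e'.1 := by
    by_contra hne
    have h2 := congrFun h e.1
    unfold dir at h2
    rw [Pi.single_eq_same, Pi.single_eq_of_ne hne] at h2
    split_ifs at h2 <;> omega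
  have h3 : e.2 = e'.2 := by
    have h2 := congrFun h e.1
    unfold dir at h2
    rw [Pi.single_eq_same, ← h1, Pi.single_eq_same] at h2
    cases h4 : e.2 <;> cases h5 : e'.2 <;> simp_all
  exact Prod.ext h1 h3

theorem dir_neg (e : D d) : dir (e.1, !e.2) = - dir e := by
  unfold dir
  rw [← Pi.single_neg]
  cases e.2 <;> simp

/-! ### expectations of letters -/

variable {α : Type} [Fintype α]

theorem Ex_congr (p : α → ℝ) (n : ℕ) (F G : List α → ℝ) (h : ∀ l, l.length = n → F l = G l) :
    Ex p n F = Ex p n G := by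
  induction n generalizing F G with
  | zero => exact h [] rfl
  | succ n ih =>
    unfold Ex
    refine Finset.sum_congr rfl fun e _ => ?_
    rw [ih _ _ fun l hl => h (e :: l) (by simp [hl])]

theorem Ex_mul (p : α → ℝ) (n : ℕ) (c : ℝ) (F : List α → ℝ) :
    Ex p n (fun l => c * F l) = c * Ex p n F := by
  induction n generalizing F with
  | zero => rfl
  | succ n ih =>
    unfold Ex
    rw [Finset.mul_sum]
    refine Finset.sum_congr rfl fun e _ => ?_
    rw [ih]
    ring

theorem Ex_sum {β : Type} (s : Finset β) (p : α → ℝ) (n : ℕ) (F : β → List α → ℝ) :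
    Ex p n (fun l => ∑ b ∈ s, F b l) = ∑ b ∈ s, Ex p n (F b) := by
  induction n generalizing F with
  | zero => rfl
  | succ n ih =>
    unfold Ex
    rw [Finset.sum_comm]
    refine Finset.sum_congr rfl fun e _ => ?_
    rw [ih, Finset.mul_sum]

/-- the last letter -/
theorem Ex_last (p : α → ℝ) (n : ℕ) (F : List α → ℝ) :
    Ex p (n + 1) F = Ex p n (fun l => ∑ e, p e * F (l ++ [e])) := by
  induction n generalizing F with
  | zero => rfl
  | succ n ih =>
    rw [show Ex p (n + 1 + 1) F = ∑ e, p e * Ex p (n + 1) (fun l => F (e :: l)) from rfl]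
    rw [show Ex p (n + 1) (fun l => ∑ e, p e * F (l ++ [e])) =
      ∑ e', p e' * Ex p n (fun l => ∑ e, p e * F ((e' :: l) ++ [e])) from rfl]
    refine Finset.sum_congr rfl fun e _ => ?_
    rw [ih]
    rfl

/-! ### measurability -/

variable {Ω : Type}

theorem meas_past (X : ℕ → ℕ → Ω → V d) (i n s : ℕ) (hs : s ≤ n) :
    @Measurable Ω (V d) (past X i n) _ (X i s) := by
  have h1 : MeasurableSpace.comap (X i s) inferInstance ≤ past X i n := by
    unfold past
    refine le_trans ?_ le_sup_right
    exact le_iSup₂_of_le s hs le_rfl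
  exact (comap_measurable (X i s)).mono h1 le_rfl

theorem past_le [mΩ : MeasurableSpace Ω] (X : ℕ → ℕ → Ω → V d) (hX : ∀ i n, Measurable (X i n))
    (i n : ℕ) : past X i n ≤ mΩ := by
  unfold past
  refine sup_le ?_ ?_
  · exact iSup_le fun m => iSup_le fun _ => iSup_le fun s => (hX m s).comap_le
  · exact iSup_le fun s => iSup_le fun _ => (hX i s).comap_le

/-- A functional which depends on the first coordinates is measurable. -/
theorem meas_dep (X : ℕ → ℕ → Ω → V d) (i n : ℕ) (F : (ℕ → V d) → ℝ)
    (hF : ∀ S S' : ℕ → V d, (∀ t ≤ n, S t = S' t) → F S = F S') :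
    @Measurable Ω ℝ (past X i n) _ (fun ω => F (fun t => X i t ω)) := by
  have h1 : @Measurable Ω (Fin (n + 1) → V d) (past X i n) _
      (fun ω => fun t : Fin (n + 1) => X i t ω) := by
    refine @measurable_pi_lambda Ω (Fin (n + 1)) (fun _ => V d) (past X i n) _ _ fun t => ?_
    exact meas_past X i n t (Nat.lt_succ_iff.1 t.2)
  let G : (Fin (n + 1) → V d) → ℝ := fun s => F (fun t => if h : t < n + 1 then s ⟨t, h⟩ else 0)
  have h2 : Measurable G := Measurable.of_discrete
  have h3 : (fun ω => F (fun t => X i t ω)) = G ∘ (fun ω => fun t : Fin (n + 1) => X i t ω) := by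
    funext ω
    refine hF _ _ fun t ht => ?_
    rw [dif_pos (Nat.lt_succ_iff.2 ht)]
  rw [h3]
  exact h2.comp h1

/-- The event that the walk makes the step `e` at time `n`. -/
def stp (X : ℕ → ℕ → Ω → V d) (i n : ℕ) (e : D d) : Set Ω :=
  {ω | X i (n + 1) ω = X i n ω + dir e}

theorem stp_meas [MeasurableSpace Ω] (X : ℕ → ℕ → Ω → V d) (hX : ∀ i n, Measurable (X i n))
    (i n : ℕ) (e : D d) : MeasurableSet (stp X i n e) :=
  measurableSet_eq_fun (hX i (n + 1)) ((hX i n).add_const _)

open Classical in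
theorem sum_stp_le (X : ℕ → ℕ → Ω → V d) (i n : ℕ) (ω : Ω) :
    ∑ e, (stp X i n e).indicator (fun _ => (1 : ℝ)) ω ≤ 1 := by
  by_cases h : ∃ e, ω ∈ stp X i n e
  · obtain ⟨e, he⟩ := h
    rw [Finset.sum_eq_single e]
    · exact Set.indicator_le_self' (fun _ _ => zero_le_one) ω |>.trans (le_of_eq rfl)
    · intro e' _ hne
      refine Set.indicator_of_notMem (fun he' => hne (dir_injective ?_)) _
      have h1 : X i (n + 1) ω = X i n ω + dir e := he
      have h2 : X i (n + 1) ω = X i n ω + dir e' := he'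
      rw [h1] at h2
      exact (add_left_cancel h2).symm
    · intro h; exact absurd (Finset.mem_univ _) h
  · rw [Finset.sum_eq_zero]
    · exact zero_le_one
    · intro e _
      exact Set.indicator_of_notMem (fun he => h ⟨e, he⟩) _

/-- Where the transition probabilities sum to one the walk makes a step, and the transition
probability of this step is positive. -/
theorem step_ae [MeasurableSpace Ω] (μ : Measure Ω) [IsProbabilityMeasure μ]
    (p : ℕ → D d → ℝ) (X : ℕ → ℕ → Ω → V d) (hX : IsIterated μ p X) (i n : ℕ) :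
    ∀ᵐ ω ∂μ, (∀ e, ω ∈ stp X i n e → trans (p i) (env X i ω) (X i n ω) e ≠ 0) ∧
      (∑ e, trans (p i) (env X i ω) (X i n ω) e = 1 → ∃ e, ω ∈ stp X i n e) := by
  classical
  have hm := past_le X hX.meas i n
  have hint : ∀ e, Integrable ((stp X i n e).indicator (fun _ => (1 : ℝ))) μ := fun e =>
    (integrable_const _).indicator (stp_meas X hX.meas i n e)
  let g : D d → Ω → ℝ := fun e => μ[(stp X i n e).indicator (fun _ => (1 : ℝ)) | past X i n]
  have hg : ∀ e, g e =ᵐ[μ] fun ω => trans (p i) (env X i ω) (X i n ω) e := fun e => hX.step i n e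
  have hgm : ∀ e, @Measurable Ω ℝ (past X i n) _ (g e) := fun e =>
    (stronglyMeasurable_condExp).measurable
  -- first claim
  have h1 : ∀ e, ∀ᵐ ω ∂μ, ω ∈ stp X i n e → g e ω ≠ 0 := by
    intro e
    have hA : MeasurableSet[past X i n] {ω | g e ω = 0} := hgm e (measurableSet_singleton 0)
    have h2 : ∫ ω in {ω | g e ω = 0}, (stp X i n e).indicator (fun _ => (1 : ℝ)) ω ∂μ = 0 := by
      rw [← setIntegral_condExp hm (hint e) hA]
      exact setIntegral_eq_zero_of_forall_eq_zero fun ω hω => hω
    rw [← integral_indicator (hm _ hA)] at h2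
    have h3 : (0 : Ω → ℝ) ≤ ({ω | g e ω = 0}).indicator
        (fun ω => (stp X i n e).indicator (fun _ => (1 : ℝ)) ω) := by
      intro ω
      exact Set.indicator_nonneg (fun _ _ => Set.indicator_nonneg (fun _ _ => zero_le_one) _) _
    rw [integral_eq_zero_iff_of_nonneg h3 ((hint e).indicator (hm _ hA))] at h2
    filter_upwards [h2] with ω hω hs hz
    rw [Set.indicator_of_mem (show ω ∈ {ω | g e ω = 0} from hz), Set.indicator_of_mem hs] at hω
    exact one_ne_zero hω
  -- second claim
  have h2 : ∀ᵐ ω ∂μ, ∑ e, g e ω = 1 → ∃ e, ω ∈ stp X i n e := by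
    have hsm : @Measurable Ω ℝ (past X i n) _ (fun ω => ∑ e, g e ω) :=
      Finset.measurable_fun_sum _ fun e _ => hgm e
    have hA : MeasurableSet[past X i n] {ω | ∑ e, g e ω = 1} := hsm (measurableSet_singleton 1)
    have h3 : ∫ ω in {ω | ∑ e, g e ω = 1},
        (1 - ∑ e, (stp X i n e).indicator (fun _ => (1 : ℝ)) ω) ∂μ = 0 := by
      rw [integral_sub (integrable_const _).integrableOn
        ((integrable_finset_sum _ fun e _ => hint e).integrableOn),
        integral_finset_sum _ fun e _ => (hint e).integrableOn]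
      have h4 : ∀ e, ∫ ω in {ω | ∑ e, g e ω = 1}, (stp X i n e).indicator (fun _ => (1 : ℝ)) ω ∂μ
          = ∫ ω in {ω | ∑ e, g e ω = 1}, g e ω ∂μ := fun e =>
        (setIntegral_condExp hm (hint e) hA).symm
      have hgint : ∀ e, Integrable (g e) (μ.restrict {ω | ∑ e, g e ω = 1}) := fun e =>
        (integrable_condExp (μ := μ)).integrableOn
      have hgint' : Integrable (fun ω => ∑ e, g e ω) (μ.restrict {ω | ∑ e, g e ω = 1}) :=
        integrable_finset_sum _ fun e _ => hgint e
      have h6 : ∑ e, ∫ ω in {ω | ∑ e, g e ω = 1}, g e ω ∂μ =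
          ∫ ω in {ω | ∑ e, g e ω = 1}, ∑ e, g e ω ∂μ :=
        (integral_finset_sum _ fun e _ => hgint e).symm
      have h7 : ∫ ω in {ω | ∑ e, g e ω = 1}, (1 : ℝ) ∂μ -
          ∫ ω in {ω | ∑ e, g e ω = 1}, ∑ e, g e ω ∂μ =
          ∫ ω in {ω | ∑ e, g e ω = 1}, (1 - ∑ e, g e ω) ∂μ :=
        (integral_sub (integrable_const _) hgint').symm
      rw [Finset.sum_congr rfl fun e _ => h4 e, h6, h7]
      exact setIntegral_eq_zero_of_forall_eq_zero fun ω hω => by
        rw [show ∑ e, g e ω = 1 from hω, sub_self]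
    rw [← integral_indicator (hm _ hA)] at h3
    have h5 : (0 : Ω → ℝ) ≤ ({ω | ∑ e, g e ω = 1}).indicator
        (fun ω => 1 - ∑ e, (stp X i n e).indicator (fun _ => (1 : ℝ)) ω) := by
      intro ω
      refine Set.indicator_nonneg (fun ω _ => ?_) _
      linarith [sum_stp_le X i n ω]
    rw [integral_eq_zero_iff_of_nonneg h5 (((integrable_const _).sub
      (integrable_finset_sum _ fun e _ => hint e)).indicator (hm _ hA))] at h3
    filter_upwards [h3] with ω hω hs
    rw [Set.indicator_of_mem (show ω ∈ {ω | ∑ e, g e ω = 1} from hs)] at hω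
    by_contra hcon
    push Not at hcon
    rw [Finset.sum_eq_zero fun e _ => Set.indicator_of_notMem (hcon e) _] at hω
    simp at hω
  have h3 : ∀ᵐ ω ∂μ, ∀ e, g e ω = trans (p i) (env X i ω) (X i n ω) e :=
    ae_all_iff.2 hg
  filter_upwards [ae_all_iff.2 h1, h2, h3] with ω a1 a2 a3
  refine ⟨fun e he => ?_, fun hs => ?_⟩
  · rw [← a3 e]; exact a1 e he
  · refine a2 ?_
    rw [← hs]
    exact Finset.sum_congr rfl fun e _ => a3 e

end Pool.Agent.Helper60.BW.Base
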